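import Pool.Agent.H741.RS.PubM

/-!
# Project RS, MAT: unitary matrices and linear isometry equivalences (helper264 for helper741)
-/

set_option autoImplicit false

open Pool.Agent.H741.RS

namespace Pool.Agent.H264.RS.MAT

/-- a multiplicative equivalence which respects the star operations gives one of the unitary groups -/
def uE {R S : Type} [Monoid R] [StarMul R] [Monoid S] [StarMul S] (e : R ≃* S)
    (he : ∀ x, e (star x) = star (e x)) : unitary R ≃* unitary S where
  toFun A := ⟨e A.1, by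
    rw [Unitary.mem_iff, ← he, ← map_mul, ← map_mul, (Unitary.mem_iff.1 A.2).1, (Unitary.mem_iff.1 A.2).2, map_one]
    exact ⟨rfl, rfl⟩⟩
  invFun B := ⟨e.symm B.1, by
    have h : star (e.symm B.1) = e.symm (star B.1) := by
      apply e.injective
      rw [he, e.apply_symm_apply, e.apply_symm_apply]
    rw [Unitary.mem_iff, h, ← map_mul, ← map_mul, (Unitary.mem_iff.1 B.2).1, (Unitary.mem_iff.1 B.2).2, map_one]
    exact ⟨rfl, rfl⟩⟩
  left_inv A := Subtype.ext (e.symm_apply_apply A.1)
  right_inv B := Subtype.ext (e.apply_symm_apply B.1)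
  map_mul' A B := Subtype.ext (map_mul e A.1 B.1)

/-- matrices and operators -/
noncomputable def mE (n : ℕ) : Matrix (Fin n) (Fin n) ℂ ≃* (V n →L[ℂ] V n) where
  toFun := Matrix.toEuclideanCLM (n := Fin n) (𝕜 := ℂ)
  invFun := (Matrix.toEuclideanCLM (n := Fin n) (𝕜 := ℂ)).symm
  left_inv A := (Matrix.toEuclideanCLM (n := Fin n) (𝕜 := ℂ)).symm_apply_apply A
  right_inv B := (Matrix.toEuclideanCLM (n := Fin n) (𝕜 := ℂ)).apply_symm_apply B
  map_mul' A B := (Matrix.toEuclideanCLM (n := Fin n) (𝕜 := ℂ)).map_mul' A B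

theorem t_MAT : S_MAT := by
  intro n
  refine ⟨(uE (mE n) fun A => (Matrix.toEuclideanCLM (n := Fin n) (𝕜 := ℂ)).map_star' A).trans
    (Unitary.linearIsometryEquiv (𝕜 := ℂ) (H := V n)), ?_⟩
  intro A z
  rfl

end Pool.Agent.H264.RS.MAT
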